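import Pool.Agent.Helper83.EIN2.Goals

/-!
# Project EIN2 (MP_06d934_gt), packet LLS: a zero of the chart `LL` gives a solution
-/

set_option autoImplicit false

namespace Pool.Agent.Helper3.EIN2

open Pool.Agent.Helper83.EIN Pool.Agent.Helper83.EIN2

/-- All three cosines of a triangle from the projection identities. -/
theorem cs3 {x y z p q r : ℝ} (hx : 0 < x) (hy : 0 < y) (hz : 0 < z) (h1 : x = y * r + z * q)
    (h2 : y = x * r + z * p) (h3 : z = x * q + y * p) : cs x y z = r ∧ cs x z y = q ∧ cs y z x = p := by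
  refine ⟨cs_of_proj (p := p) (q := q) hx hy h1 h2 h3, cs_of_proj (p := p) (q := r) hx hz ?_ h3 h2,
    cs_of_proj (p := q) (q := r) hy hz ?_ ?_ ?_⟩ <;> linarith

theorem lls (hPR : PR) : LLS := by
  intro a β t p ht ht1 hβ hβ1 hpos h
  have hu : lenLL a β t p 0 = t * (1 + (1 - t) * t * (β * p 8 + (1 - β) * p 9)) := rfl
  have hw : lenLL a β t p 1 = 1 - t + t ^ 3 * (a * p 2 + (1 - a) * p 5) := rfl
  have hy0 : lenLL a β t p 2 = 1 - t * (1 - a) * p 0 - (1 - t) * (1 - β) * (1 - t ^ 2 * p 4) := rfl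
  have hz0 : lenLL a β t p 3 =
      1 - t * (1 - a) * (p 0 - t * p 1) + (1 - t) * β * (1 - t ^ 2 * p 3) := rfl
  have hy1 : lenLL a β t p 4 =
      1 - t * a * (-(p 0) + t * p 10) - (1 - t) * (1 - β) * (1 - t ^ 2 * p 7) := rfl
  have hz1 : lenLL a β t p 5 =
      1 - t * a * (-(p 0 - t * p 1) + t * p 11) + (1 - t) * β * (1 - t ^ 2 * p 6) := rfl
  have q0 : -((1 - a) * p 1) + (1 - t) * ((1 - β) * p 4 + β * p 3) + t * (a * p 2 + (1 - a) * p 5) -
      (lenLL a β t p 2 * p 2 + lenLL a β t p 1 * p 4) = 0 := congrFun h 0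
  have q1 : -((1 - a) * p 1) + (1 - t) * ((1 - β) * p 4 + β * p 3) + t * (a * p 2 + (1 - a) * p 5) -
      (lenLL a β t p 2 * p 3 - lenLL a β t p 3 * p 4) = 0 := congrFun h 1
  have q2 : -((1 - a) * p 1) + (1 - t) * ((1 - β) * p 4 + β * p 3) + t * (a * p 2 + (1 - a) * p 5) -
      (lenLL a β t p 1 * p 3 - lenLL a β t p 3 * p 2) = 0 := congrFun h 2
  have q3 : -(a * (p 10 - p 11 - p 1)) + (1 - t) * ((1 - β) * p 7 + β * p 6) +
      t * (a * p 2 + (1 - a) * p 5) -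
      (lenLL a β t p 4 * p 5 + lenLL a β t p 1 * p 7) = 0 := congrFun h 3
  have q4 : -(a * (p 10 - p 11 - p 1)) + (1 - t) * ((1 - β) * p 7 + β * p 6) +
      t * (a * p 2 + (1 - a) * p 5) -
      (lenLL a β t p 4 * p 6 - lenLL a β t p 5 * p 7) = 0 := congrFun h 4
  have q5 : -(a * (p 10 - p 11 - p 1)) + (1 - t) * ((1 - β) * p 7 + β * p 6) +
      t * (a * p 2 + (1 - a) * p 5) -
      (lenLL a β t p 1 * p 6 - lenLL a β t p 5 * p 5) = 0 := congrFun h 5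
  have q6 : -(a * p 10) + (1 - t) * (1 - β) * (p 7 - p 4) -
      ((1 - t) * (β * p 8 + (1 - β) * p 9) * p 0 - lenLL a β t p 2 * p 8) = 0 := congrFun h 6
  have q7 : -(a * p 11) - (1 - t) * β * (p 6 - p 3) -
      ((1 - t) * (β * p 8 + (1 - β) * p 9) * (p 0 - t * p 1) - lenLL a β t p 3 * p 9) = 0 :=
    congrFun h 7
  have q8 : (1 + (1 - t) * t * (β * p 8 + (1 - β) * p 9)) ^ 2 * (1 - p 0 ^ 2) -
      lenLL a β t p 2 * p 8 * (lenLL a β t p 2 + lenLL a β t p 4 -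
        t * (1 + (1 - t) * t * (β * p 8 + (1 - β) * p 9)) * p 0) = 0 := congrFun h 8
  have q9 : (1 + (1 - t) * t * (β * p 8 + (1 - β) * p 9)) ^ 2 * (1 - (p 0 - t * p 1) ^ 2) -
      lenLL a β t p 3 * p 9 * (lenLL a β t p 3 + lenLL a β t p 5 -
        t * (1 + (1 - t) * t * (β * p 8 + (1 - β) * p 9)) * (p 0 - t * p 1)) = 0 := congrFun h 9
  have q10 : (1 + (1 - t) * t * (β * p 8 + (1 - β) * p 9)) * p 10 -
      p 8 * (lenLL a β t p 2 + lenLL a β t p 4) = 0 := congrFun h 10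
  have q11 : (1 + (1 - t) * t * (β * p 8 + (1 - β) * p 9)) * p 11 -
      p 9 * (lenLL a β t p 3 + lenLL a β t p 5) = 0 := congrFun h 11
  have hpar : ∀ v, parLL t v = ![cs (v 0) (v 4) (v 2), (cs (v 0) (v 4) (v 2) - cs (v 0) (v 5) (v 3)) / t,
    (1 - cs (v 2) (v 3) (v 1)) / t ^ 2, (1 + cs (v 1) (v 2) (v 3)) / t ^ 2,
    (1 - cs (v 1) (v 3) (v 2)) / t ^ 2,
    (1 - cs (v 4) (v 5) (v 1)) / t ^ 2, (1 + cs (v 1) (v 4) (v 5)) / t ^ 2,
    (1 - cs (v 1) (v 5) (v 4)) / t ^ 2,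
    (1 - cs (v 2) (v 4) (v 0)) / t ^ 2, (1 - cs (v 3) (v 5) (v 0)) / t ^ 2,
    (cs (v 0) (v 4) (v 2) + cs (v 0) (v 2) (v 4)) / t,
    (cs (v 0) (v 5) (v 3) + cs (v 0) (v 3) (v 5)) / t] := fun v ↦ rfl
  have pu := hpos 0
  have pw := hpos 1
  have py0 := hpos 2
  have pz0 := hpos 3
  have py1 := hpos 4
  have pz1 := hpos 5
  clear h
  generalize lenLL a β t p = v at *
  have hξ : 0 < 1 + (1 - t) * t * (β * p 8 + (1 - β) * p 9) := by
    rw [hu] at pu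
    exact (pos_iff_pos_of_mul_pos pu).1 ht
  -- the triangle `023`
  have s0 : v 1 + v 2 - v 3 = t ^ 2 * (-((1 - a) * p 1) + (1 - t) * ((1 - β) * p 4 + β * p 3) +
      t * (a * p 2 + (1 - a) * p 5)) := by linear_combination hw + hy0 - hz0
  obtain ⟨c1, c2, c3⟩ := cs3 (p := 1 - t ^ 2 * p 2) (q := 1 - t ^ 2 * p 4) (r := -1 + t ^ 2 * p 3) pw py0
    pz0 (by linear_combination s0 + t ^ 2 * q1) (by linear_combination s0 + t ^ 2 * q2)
    (by linear_combination -s0 - t ^ 2 * q0)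
  -- the triangle `123`
  have s1 : v 1 + v 4 - v 5 = t ^ 2 * (-(a * (p 10 - p 11 - p 1)) +
      (1 - t) * ((1 - β) * p 7 + β * p 6) + t * (a * p 2 + (1 - a) * p 5)) := by
    linear_combination hw + hy1 - hz1
  obtain ⟨d1, d2, d3⟩ := cs3 (p := 1 - t ^ 2 * p 5) (q := 1 - t ^ 2 * p 7) (r := -1 + t ^ 2 * p 6) pw py1
    pz1 (by linear_combination s1 + t ^ 2 * q4) (by linear_combination s1 + t ^ 2 * q5)
    (by linear_combination -s1 - t ^ 2 * q3)
  -- the triangle `012`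
  obtain ⟨e1, e2, e3⟩ := (hPR t (1 + (1 - t) * t * (β * p 8 + (1 - β) * p 9)) (v 2) (v 4) (p 0)
    (-(p 0) + t * p 10) (p 8) (p 10) ht hξ py0 py1 (by ring)).2
    ⟨by linear_combination hy1 - hy0 + t ^ 2 * q6, q8, q10⟩
  -- the triangle `013`
  obtain ⟨f1, f2, f3⟩ := (hPR t (1 + (1 - t) * t * (β * p 8 + (1 - β) * p 9)) (v 3) (v 5)
    (p 0 - t * p 1) (-(p 0 - t * p 1) + t * p 11) (p 9) (p 11) ht hξ pz0 pz1 (by ring)).2
    ⟨by linear_combination hz1 - hz0 + t ^ 2 * q7, q9, q11⟩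
  rw [← hu] at e1 e2 e3 f1 f2 f3
  have ht0 : t ≠ 0 := ht.ne'
  constructor
  · refine ⟨hpos, ?_, ?_, ?_, ?_, ?_, ?_⟩
    · rw [e3, f3]
      linear_combination hu
    · rw [c3, d3]
      linear_combination hw
    · rw [e1, c2]
      linear_combination hy0
    · rw [f1, c1]
      linear_combination hz0
    · rw [e2, d2]
      linear_combination hy1
    · rw [f2, d1]
      linear_combination hz1
  · rw [hpar, c1, c2, c3, d1, d2, d3, e1, e2, e3, f1, f2, f3]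
    funext i
    fin_cases i <;> simp <;> field_simp <;> ring

end Pool.Agent.Helper3.EIN2
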